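import Pool.Agent.MVO.StmtsE

set_option autoImplicit false

namespace Pool.Agent.MVO.H82

open Pool.Agent.MVO Pool.Agent.Helper14_MV Pool.Agent.Helper2_MV

theorem lcl_two {a b : ℕ} {L : List ℕ} (ha : a ∈ L) (hb : b ∈ L) (hab : a ≠ b) :
    (∃ l1 c l2 : List ℕ, L = l1 ++ a :: (c ++ b :: l2)) ∨
      (∃ l1 c l2 : List ℕ, L = l1 ++ b :: (c ++ a :: l2)) := by
  obtain ⟨s, t, rfl⟩ := List.append_of_mem ha
  rcases List.mem_append.mp hb with h | h
  · obtain ⟨s1, s2, rfl⟩ := List.append_of_mem h
    right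
    exact ⟨s1, s2, t, by simp⟩
  · rcases List.mem_cons.mp h with h | h
    · exact absurd h.symm hab
    · obtain ⟨t1, t2, rfl⟩ := List.append_of_mem h
      left
      exact ⟨s, t1, t2, rfl⟩

theorem lcl_swap (hS : SgcStmt) {β : FIC} (hβ : MVD.Cc β) (p q L1 L2 : List ℕ) (a b : ℕ)
    (hab : a ≠ b) (hL1 : ∀ z ∈ L1, z = a ∨ z = b) (hL2 : ∀ z ∈ L2, z = a ∨ z = b)
    (ha : 2 ≤ (L1 ++ a :: b :: L2).count a) (hb : 2 ≤ (L1 ++ a :: b :: L2).count b) :
    RR β ((p ++ L1) ++ a :: b :: (L2 ++ q)) ((p ++ L1) ++ b :: a :: (L2 ++ q)) := by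
  have hw : ∀ z, z = a ∨ z = b → 2 ≤ ((p ++ L1) ++ a :: b :: (L2 ++ q)).count z := by
    intro z hz
    have e : ((p ++ L1) ++ a :: b :: (L2 ++ q)).count z
        = p.count z + (L1 ++ a :: b :: L2).count z + q.count z := by
      simp only [List.count_append, List.count_cons]
      omega
    rw [e]
    rcases hz with rfl | rfl
    · omega
    · omega
  have hw' : ∀ z, z = a ∨ z = b → 2 ≤ ((p ++ L1) ++ b :: a :: (L2 ++ q)).count z := by
    intro z hz
    have := hw z hz
    simp only [List.count_append, List.count_cons] at this ⊢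
    omega
  have ha' : a ∈ L1 ∨ a ∈ L2 := by
    by_contra h
    push Not at h
    have h1 : L1.count a = 0 := List.count_eq_zero.mpr h.1
    have h2 : L2.count a = 0 := List.count_eq_zero.mpr h.2
    rw [List.count_append, List.count_cons_self, List.count_cons_of_ne (fun h => hab h.symm),
      h1, h2] at ha
    omega
  have hb' : b ∈ L1 ∨ b ∈ L2 := by
    by_contra h
    push Not at h
    have h1 : L1.count b = 0 := List.count_eq_zero.mpr h.1
    have h2 : L2.count b = 0 := List.count_eq_zero.mpr h.2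
    rw [List.count_append, List.count_cons_of_ne hab, List.count_cons_self,
      h1, h2] at hb
    omega
  have hS1 := hS β hβ (p ++ L1) (L2 ++ q) a b
  have hS2 := hS β hβ (p ++ L1) (L2 ++ q) b a
  rcases ha' with h1 | h1
  · rcases hb' with h2 | h2
    · apply hS1.2.2
      rcases lcl_two h1 h2 hab with ⟨l1, c, l2, rfl⟩ | ⟨l1, c, l2, rfl⟩
      · left
        exact ⟨p ++ l1, c, l2, by simp, fun z hz => hw z (hL1 z (by simp [hz]))⟩
      · right
        exact ⟨p ++ l1, c, l2, by simp, fun z hz => hw z (hL1 z (by simp [hz]))⟩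
    · exact hS1.1 (by simp [h1]) (by simp [h2])
  · rcases hb' with h2 | h2
    · exact (hS2.1 (by simp [h2]) (by simp [h1])).symm
    · apply hS1.2.1
      rcases lcl_two h1 h2 hab with ⟨l1, c, l2, rfl⟩ | ⟨l1, c, l2, rfl⟩
      · left
        exact ⟨l1, c, l2 ++ q, by simp, fun z hz => hw z (hL2 z (by simp [hz]))⟩
      · right
        exact ⟨l1, c, l2 ++ q, by simp, fun z hz => hw z (hL2 z (by simp [hz]))⟩

theorem lcl_ind (hS : SgcStmt) {β : FIC} (hβ : MVD.Cc β) (p q : List ℕ) (x y : ℕ)
    {l l' : List ℕ} (h : l.Perm l') : ∀ p1 q1 : List ℕ,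
    (∀ z ∈ p1 ++ l ++ q1, z = x ∨ z = y) → 2 ≤ (p1 ++ l ++ q1).count x →
    2 ≤ (p1 ++ l ++ q1).count y →
      RR β (p ++ (p1 ++ l ++ q1) ++ q) (p ++ (p1 ++ l' ++ q1) ++ q) := by
  induction h with
  | nil => intro p1 q1 _ _ _; exact RR.refl _
  | cons a _ ih =>
    intro p1 q1 h1 h2 h3
    have := ih (p1 ++ [a]) q1 (by simpa using h1) (by simpa using h2) (by simpa using h3)
    simpa using this
  | swap a b t =>
    intro p1 q1 h1 h2 h3
    by_cases hab : b = a
    · subst hab; exact RR.refl _
    · have e1 : p1 ++ b :: a :: t ++ q1 = p1 ++ b :: a :: (t ++ q1) := by simp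
      rw [e1] at h1 h2 h3
      have hcov : ∀ z, (z = x ∨ z = y) → (z = b ∨ z = a) := by
        intro z hz
        have hb := h1 b (by simp)
        have ha := h1 a (by simp)
        omega
      have hcnt : 2 ≤ (p1 ++ b :: a :: (t ++ q1)).count b ∧
          2 ≤ (p1 ++ b :: a :: (t ++ q1)).count a := by
        have hb := h1 b (by simp)
        have ha := h1 a (by simp)
        constructor
        · rcases hb with rfl | rfl
          · exact h2
          · exact h3
        · rcases ha with rfl | rfl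
          · exact h2
          · exact h3
      have := lcl_swap hS hβ p q p1 (t ++ q1) b a hab
        (fun z hz => hcov z (h1 z (by simp [hz])))
        (fun z hz => hcov z (h1 z (by
          rw [List.mem_append, List.mem_cons, List.mem_cons]; exact Or.inr (Or.inr (Or.inr hz)))))
        hcnt.1 hcnt.2
      simpa using this
  | trans hp1 hp2 ih1 ih2 =>
    intro p1 q1 h1 h2 h3
    refine β.trans (ih1 p1 q1 h1 h2 h3) (ih2 p1 q1 ?_ ?_ ?_)
    · intro z hz
      apply h1 z
      simp only [List.mem_append] at hz ⊢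
      rcases hz with (hz | hz) | hz
      · exact Or.inl (Or.inl hz)
      · exact Or.inl (Or.inr (hp1.mem_iff.mpr hz))
      · exact Or.inr hz
    · have := hp1.count_eq x
      simp only [List.count_append] at h2 ⊢
      omega
    · have := hp1.count_eq y
      simp only [List.count_append] at h3 ⊢
      omega

/-- **LCL**.  Two local letters of the same block commute in class Cc. -/
theorem lcl (hS : SgcStmt) : LclStmt := by
  intro β hβ p q l l' x y hp h1 h2 h3
  have := lcl_ind hS hβ p q x y hp [] [] (by simpa using h1) (by simpa using h2)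
    (by simpa using h3)
  simpa using this

end Pool.Agent.MVO.H82
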