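import Pool.Agent.MVO.StmtsV

set_option autoImplicit false

namespace Pool.Agent.MVO.H82

open Pool.Agent.MVO Pool.Agent.Helper14_MV Pool.Agent.Helper2_MV

theorem nv6_asm {k : ℕ} {B B' : ℕ → List ℕ} (h : ∀ j ≤ k, B j = B' j) : asm k B = asm k B' := by
  induction k with
  | zero => exact h 0 le_rfl
  | succ k ih =>
    show asm k B ++ (k + 2) :: B (k + 1) = asm k B' ++ (k + 2) :: B' (k + 1)
    rw [ih (fun j hj => h j (by omega)), h (k + 1) le_rfl]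

theorem nv6_bt {β : FIC} {k : ℕ} {a a' b b' : ℕ → ℕ} {i : ℕ} (ha : ∀ j ≤ k, a j = a' j)
    (hb : ∀ j ≤ k, b j = b' j) (h : Bt β k a b i) : Bt β k a' b' i := by
  intro e
  have h1 := h e
  unfold Ex w2 at h1 ⊢
  rw [nv6_asm (B := fun j => bl (a' j) (b' j) (e j)) (B' := fun j => bl (a j) (b j) (e j))
      (fun j hj => by simp only [ha j hj, hb j hj]),
    nv6_asm (B := fun j => bl (a' j) (b' j) (flp e i j)) (B' := fun j => bl (a j) (b j) (flp e i j))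
      (fun j hj => by simp only [ha j hj, hb j hj])]
  exact h1

/-- **NV6**.  The clauses over `O2`. -/
theorem nv6 (hNV4 : Nv4Stmt) (hNV5 : Nv5Stmt) : Nv6Stmt := by
  intro β hH h2 h1 h3
  have h4 := hNV4 β hH h2 h1 h3
  refine ⟨Or.inr h4, ?_⟩
  by_cases hJ : JJ (FC.ofFIC β)
  · exact Or.inl hJ
  · right
    have h5 := hNV5 β hH h2 h1 h3 hJ
    have key : ∀ (p q r s : ℕ) (p' q' r' : ℕ), p + q = p' → r = q' → s = r' → ∀ j ≤ 2,
        psh 3 (v4 0 0 1 2) (v4 p q r s) j = v3 p' q' r' j := by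
      intro p q r s p' q' r' e1 e2 e3 j hj
      subst e1; subst e2; subst e3
      interval_cases j <;> simp [psh, v4, v3, Finset.sum_range_succ]
    refine ⟨?_, ?_, ?_, ?_⟩
    · have := h5 _ _ _ _ _ (Or.inl ⟨rfl, rfl, rfl, rfl, rfl⟩)
      refine nv6_bt (i := 0) ?_ ?_ this
      · exact key 1 1 1 0 2 1 0 rfl rfl rfl
      · exact key 0 1 0 1 1 0 1 rfl rfl rfl
    · have := h5 _ _ _ _ _ (Or.inr (Or.inl ⟨rfl, rfl, rfl, rfl, rfl⟩))
      refine nv6_bt (i := 0) ?_ ?_ this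
      · exact key 1 1 0 1 2 0 1 rfl rfl rfl
      · exact key 0 1 1 0 1 1 0 rfl rfl rfl
    · have := h5 _ _ _ _ _ (Or.inr (Or.inr (Or.inl ⟨rfl, rfl, rfl, rfl, rfl⟩)))
      refine nv6_bt (i := 2) ?_ ?_ this
      · exact key 1 1 0 1 2 0 1 rfl rfl rfl
      · exact key 0 0 1 1 0 1 1 rfl rfl rfl
    · have := h5 _ _ _ _ _ (Or.inr (Or.inr (Or.inr ⟨rfl, rfl, rfl, rfl, rfl⟩)))
      refine nv6_bt (i := 1) ?_ ?_ this
      · exact key 1 1 1 0 2 1 0 rfl rfl rfl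
      · exact key 0 0 1 1 0 1 1 rfl rfl rfl

end Pool.Agent.MVO.H82
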